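import Pool.Agent.H62.EX.Bw

/-!
# [H19 EZ SCL] Almost all scales

`scales`: if for every `L` with `B0 ≤ L ≤ 2 ^ T` there are `q ≤ Q` and `α` with at most `η q * L ^ k` elements in the bad part
`BBox (P L) L q α` of the Bohr box, then in all but `δ (T + 1) + B` of the blocks `[2 ^ j, 2 ^ (j + 1)]`, `j ≤ T`, all scales `z` are good:
for some `m₀ ≤ M₀` all but `F m₀ * z ^ k` of the increasing tuples `a` up to `z` have a multiple `m a`, `m ≤ m₀`, with `P' z`.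
`scales_sum`: the same as a bound for the sum of `1 / z` over the scales which are not good.

Proof.  If `q`, `α` belong to `L` then all `z` with `w_q z ≤ L ≤ w'_q z`, `w_q = q * Mq q`, are good (Dirichlet; `w'_q` with
`log w_q ≤ δ log w'_q`, `η q = F (Mq q) / (Mq q * w'_q ^ k)`).  Greedy covering from above.
-/

set_option autoImplicit false

namespace Pool.Agent.H19.EZ

open Finset Filter Pool.Agent.H62.EX

/-- the scale `z` is good: for some `m₀ ≤ M₀` all but `F m₀ * z ^ k` increasing tuples have a good multiple `m a`, `m ≤ m₀` -/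
def Ok {k : ℕ} (F : ℕ → ℝ) (M₀ z : ℕ) (P : (Fin k → ℕ) → Prop) : Prop :=
  ∃ m₀ ≤ M₀, ((BadDil P z m₀).card : ℝ) ≤ F m₀ * (z : ℝ) ^ k

theorem mem_BBox {k : ℕ} {L q : ℕ} {α : Fin q → ℝ} {P : (Fin k → ℕ) → Prop} {a : Fin k → ℕ} :
    a ∈ BBox P L q α ↔ (∀ j, 1 ≤ a j ∧ a j ≤ L / q) ∧ StrictMono a ∧
      (∀ j i, ∃ n : ℤ, |(a j : ℝ) * α i - n| * q ≤ 1) ∧ ¬ P a := by
  classical
  unfold BBox
  rw [mem_filter, Fintype.mem_piFinset]
  simp only [mem_Icc]

theorem mem_BadDil {k : ℕ} {z m₁ : ℕ} {P : (Fin k → ℕ) → Prop} {a : Fin k → ℕ} :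
    a ∈ BadDil P z m₁ ↔ (∀ j, 1 ≤ a j ∧ a j ≤ z) ∧ StrictMono a ∧ ¬ ∃ m : ℕ, 1 ≤ m ∧ m ≤ m₁ ∧ P (fun j => m * a j) := by
  classical
  unfold BadDil
  rw [mem_filter, Fintype.mem_piFinset]
  simp only [mem_Icc]

/-- the fibres -/
private theorem fibre {k : ℕ} {Mq : ℕ → ℕ} (hMq : ∀ q, 1 ≤ Mq q)
    (hD : ∀ q, 1 ≤ q → ∀ (α : Fin q → ℝ) (a : Fin k → ℕ),
      ∃ m : ℕ, 1 ≤ m ∧ m ≤ Mq q ∧ ∀ j i, ∃ z : ℤ, |((m : ℝ) * a j) * α i - z| * q ≤ 1)
    (L z q : ℕ) (hq : 1 ≤ q) (α : Fin q → ℝ) (P : (Fin k → ℕ) → Prop) (hz : q * Mq q * z ≤ L) :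
    (BadDil P z (Mq q)).card ≤ Mq q * (BBox P L q α).card := by
  classical
  have hch := fun a : Fin k → ℕ => hD q hq α a
  choose μ hμ1 hμ2 hμ3 using hch
  have hmaps : ∀ a ∈ BadDil P z (Mq q), (fun j => μ a * a j) ∈ BBox P L q α := by
    intro a ha
    rw [mem_BadDil] at ha
    obtain ⟨ha1, ha2, ha3⟩ := ha
    have hb1 : ∀ j, μ a * a j * q ≤ L := by
      intro j
      have h2 := (ha1 j).2
      calc μ a * a j * q ≤ Mq q * z * q := Nat.mul_le_mul_right _ (Nat.mul_le_mul (hμ2 a) h2)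
        _ = q * Mq q * z := by ring
        _ ≤ L := hz
    rw [mem_BBox]
    refine ⟨fun j => ⟨Nat.mul_pos (hμ1 a) (ha1 j).1, (Nat.le_div_iff_mul_le hq).2 (hb1 j)⟩, ?_, fun j i => ?_,
      fun hcon => ha3 ⟨μ a, hμ1 a, hμ2 a, hcon⟩⟩
    · intro i j hij
      exact Nat.mul_lt_mul_of_pos_left (ha2 hij) (hμ1 a)
    · obtain ⟨n, hn⟩ := hμ3 a j i
      refine ⟨n, ?_⟩
      push_cast
      exact hn
  have h2 : ((BadDil P z (Mq q)).image (fun a j => μ a * a j)).card ≤ (BBox P L q α).card := by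
    refine card_le_card fun b hb => ?_
    obtain ⟨a, ha, rfl⟩ := mem_image.1 hb
    exact hmaps a ha
  refine le_trans ?_ (Nat.mul_le_mul_left _ h2)
  refine card_le_mul_card_image _ (Mq q) fun b _ => ?_
  have h3 : ((BadDil P z (Mq q)).filter (fun a => (fun j => μ a * a j) = b)).card ≤ (Icc 1 (Mq q)).card := by
    refine card_le_card_of_injOn μ ?_ ?_
    · intro a _
      rw [mem_coe, mem_Icc]
      exact ⟨hμ1 a, hμ2 a⟩
    · intro a ha a' ha' haa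
      rw [mem_coe, mem_filter] at ha ha'
      funext j
      have e1 := congrFun ha.2 j
      have e2 := congrFun ha'.2 j
      rw [← e2, haa] at e1
      exact Nat.eq_of_mul_eq_mul_left (hμ1 a') e1
  rw [Nat.card_Icc] at h3
  omega

/-- the greedy covering -/
private theorem cover (δ : ℝ) (hδ : 0 < δ) (S : ℕ → Prop) [DecidablePred S] (B T : ℕ)
    (h : ∀ x, B ≤ x → x ≤ T → ∃ r r' : ℕ, r ≤ B ∧ (r : ℝ) ≤ δ * r' ∧ ∀ j, x ≤ j + r' → j + r ≤ x → ¬ S j) :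
    ∀ n, n ≤ T + 1 → (((range n).filter S).card : ℝ) ≤ δ * n + B := by
  intro n
  induction n using Nat.strong_induction_on with
  | _ n ih =>
    intro hn
    rcases Nat.lt_or_ge B n with hB | hB
    · obtain ⟨r, r', hr, hrr, hS⟩ := h (n - 1) (by omega) (by omega)
      have h1 : ((range n).filter S).card ≤ ((range (n - 1 - r')).filter S).card + (Ico (n - r) n).card := by
        rw [← card_union_add_card_inter]
        refine le_trans (card_le_card (fun j hj => ?_)) (Nat.le_add_right _ _)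
        rw [mem_filter, mem_range] at hj
        rw [mem_union, mem_filter, mem_range, mem_Ico]
        by_cases h2 : n - r ≤ j
        · exact Or.inr ⟨h2, hj.1⟩
        · refine Or.inl ⟨?_, hj.2⟩
          by_contra h3
          exact hS j (by omega) (by omega) hj.2
      have h2 := ih (n - 1 - r') (by omega) (by omega)
      have h3 : (((range n).filter S).card : ℝ) ≤ (((range (n - 1 - r')).filter S).card : ℝ) + r := by
        refine le_trans (Nat.cast_le.2 h1) ?_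
        rw [Nat.card_Ico]
        push_cast
        have h4 : ((n - (n - r) : ℕ) : ℝ) ≤ r := by
          have : n - (n - r) ≤ r := by omega
          exact_mod_cast this
        linarith
      rcases Nat.lt_or_ge (r' + 1) n with h5 | h5
      · have h6 : ((n - 1 - r' : ℕ) : ℝ) + (r' : ℝ) ≤ n := by
          have : n - 1 - r' + r' ≤ n := by omega
          exact_mod_cast this
        have h7 := mul_le_mul_of_nonneg_left h6 hδ.le
        rw [mul_add] at h7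
        linarith
      · have h6 : n - 1 - r' = 0 := by omega
        rw [h6, range_zero, filter_empty, card_empty, Nat.cast_zero, zero_add] at h3
        have h7 : (r : ℝ) ≤ B := by exact_mod_cast hr
        have h8 : 0 ≤ δ * n := by positivity
        linarith
    · have h1 : ((range n).filter S).card ≤ B := by
        refine (card_filter_le _ _).trans ?_
        rw [card_range]
        exact hB
      have h2 : (((range n).filter S).card : ℝ) ≤ B := by exact_mod_cast h1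
      have h3 : 0 ≤ δ * n := by positivity
      linarith

open Classical in
/-- **almost all scales** -/
theorem scales (k : ℕ) (F : ℕ → ℝ) (hF : ∀ m, 0 < F m) (δ : ℝ) (hδ : 0 < δ) :
    ∃ η : ℕ → ℝ, (∀ q, 0 < η q) ∧ ∀ Q B0 : ℕ, ∃ M₀ w B : ℕ, 1 ≤ w ∧
      ∀ (T : ℕ) (P P' : ℕ → (Fin k → ℕ) → Prop),
        (∀ (z L : ℕ) (a : Fin k → ℕ), z ≤ L → L ≤ w * z → P L a → P' z a) →
        (∀ L : ℕ, B0 ≤ L → L ≤ 2 ^ T → ∃ (q : ℕ) (α : Fin q → ℝ), 1 ≤ q ∧ q ≤ Q ∧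
          ((BBox (P L) L q α).card : ℝ) ≤ η q * (L : ℝ) ^ k) →
        (((range (T + 1)).filter (fun j => ¬ ∀ z : ℕ, 2 ^ j ≤ z → z ≤ 2 ^ (j + 1) →
          Ok F M₀ z (P' z))).card : ℝ) ≤ δ * (T + 1) + B := by
  obtain ⟨Mq, hM1, hM2⟩ := dir_all k
  obtain ⟨r, hr⟩ : ∃ r : ℕ → ℕ, r = fun q => q * Mq q + 1 := ⟨_, rfl⟩
  obtain ⟨r', hr'⟩ : ∃ r' : ℕ → ℕ, r' = fun q => ⌈(r q : ℝ) / δ⌉₊ := ⟨_, rfl⟩
  have hrr : ∀ q, (r q : ℝ) ≤ δ * r' q := by
    intro q
    have h1 : (r q : ℝ) / δ ≤ r' q := by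
      rw [hr']
      exact Nat.le_ceil _
    rw [div_le_iff₀ hδ] at h1
    linarith
  refine ⟨fun q => F (Mq q) / (Mq q * (2 ^ r' q) ^ k), fun q => ?_, fun Q B0 => ?_⟩
  · have h1 : (0 : ℝ) < Mq q := by exact_mod_cast hM1 q
    have h2 := hF (Mq q)
    positivity
  obtain ⟨R, hR⟩ : ∃ R : ℕ, R = ∑ q ∈ range (Q + 1), (Mq q + r q + r' q) := ⟨_, rfl⟩
  have hle : ∀ q ≤ Q, Mq q + r q + r' q ≤ R := by
    intro q hq
    rw [hR]
    exact single_le_sum (f := fun q => Mq q + r q + r' q) (fun _ _ => Nat.zero_le _)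
      (mem_range.2 (Nat.lt_succ_of_le hq))
  refine ⟨R, 2 ^ R, B0 + R, Nat.one_le_two_pow, fun T P P' hPP hbox => ?_⟩
  have h1 := cover δ hδ (fun j => ¬ ∀ z : ℕ, 2 ^ j ≤ z → z ≤ 2 ^ (j + 1) →
          Ok F R z (P' z)) (B0 + R) T (by
    intro x hx1 hx2
    obtain ⟨q, α, hq1, hq2, hcard⟩ := hbox (2 ^ x) (by
      have := Nat.lt_two_pow_self (n := x)
      omega) (Nat.pow_le_pow_right (by norm_num) hx2)
    have hleq := hle q hq2
    refine ⟨r q, r' q, by omega, hrr q, fun j hj1 hj2 => ?_⟩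
    rw [not_not]
    intro z hz1 hz2
    have hMr : (0 : ℝ) < Mq q := by exact_mod_cast hM1 q
    have hz : q * Mq q * z ≤ 2 ^ x := by
      calc q * Mq q * z ≤ 2 ^ (q * Mq q) * 2 ^ (j + 1) :=
            Nat.mul_le_mul (Nat.lt_two_pow_self (n := q * Mq q)).le hz2
        _ = 2 ^ (j + r q) := by
            rw [← pow_add, hr]
            congr 1
            ring
        _ ≤ 2 ^ x := Nat.pow_le_pow_right (by norm_num) hj2
    have hzL : z ≤ 2 ^ x := by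
      refine le_trans ?_ hz
      exact Nat.le_mul_of_pos_left _ (Nat.mul_pos hq1 (hM1 q))
    have hLz : 2 ^ x ≤ 2 ^ r' q * z := by
      calc 2 ^ x ≤ 2 ^ (r' q + j) := Nat.pow_le_pow_right (by norm_num) (by omega)
        _ = 2 ^ r' q * 2 ^ j := pow_add _ _ _
        _ ≤ 2 ^ r' q * z := Nat.mul_le_mul_left _ hz1
    have hLz2 : 2 ^ x ≤ 2 ^ R * z := hLz.trans
      (Nat.mul_le_mul_right _ (Nat.pow_le_pow_right (by norm_num) (by omega)))
    refine ⟨Mq q, by omega, ?_⟩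
    have e1 : (BadDil (P' z) z (Mq q)).card ≤ (BadDil (P (2 ^ x)) z (Mq q)).card := by
      refine card_le_card (fun a ha => ?_)
      rw [mem_BadDil] at ha ⊢
      refine ⟨ha.1, ha.2.1, fun ⟨m, hm1, hm2, hm3⟩ => ha.2.2 ⟨m, hm1, hm2, ?_⟩⟩
      exact hPP z (2 ^ x) _ hzL hLz2 hm3
    have e2 := fibre hM1 hM2 (2 ^ x) z q hq1 α (P (2 ^ x)) hz
    have e3 : ((BadDil (P' z) z (Mq q)).card : ℝ) ≤ Mq q * ((BBox (P (2 ^ x)) (2 ^ x) q α).card : ℝ) := by
      exact_mod_cast e1.trans e2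
    have e4 : (((2 ^ x : ℕ) : ℕ) : ℝ) ^ k ≤ (2 ^ r' q) ^ k * (z : ℝ) ^ k := by
      rw [← mul_pow]
      refine pow_le_pow_left₀ (Nat.cast_nonneg _) ?_ k
      exact_mod_cast hLz
    have hP : (0 : ℝ) < (2 ^ r' q) ^ k := by positivity
    have hFq := hF (Mq q)
    calc ((BadDil (P' z) z (Mq q)).card : ℝ) ≤ Mq q * ((BBox (P (2 ^ x)) (2 ^ x) q α).card : ℝ) := e3
      _ ≤ Mq q * (F (Mq q) / (Mq q * (2 ^ r' q) ^ k) * (((2 ^ x : ℕ) : ℕ) : ℝ) ^ k) :=
          mul_le_mul_of_nonneg_left hcard hMr.le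
      _ = F (Mq q) / (2 ^ r' q) ^ k * (((2 ^ x : ℕ) : ℕ) : ℝ) ^ k := by
          field_simp
      _ ≤ F (Mq q) / (2 ^ r' q) ^ k * ((2 ^ r' q) ^ k * (z : ℝ) ^ k) :=
          mul_le_mul_of_nonneg_left e4 (by positivity)
      _ = F (Mq q) * (z : ℝ) ^ k := by
          field_simp) (T + 1) le_rfl
  refine h1.trans (le_of_eq ?_)
  push_cast
  ring

open Classical in
/-- **almost all scales**, logarithmic density -/
theorem scales_sum (k : ℕ) (F : ℕ → ℝ) (hF : ∀ m, 0 < F m) (δ : ℝ) (hδ : 0 < δ) :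
    ∃ η : ℕ → ℝ, (∀ q, 0 < η q) ∧ ∀ Q B0 : ℕ, ∃ (M₀ w : ℕ) (B : ℝ), 1 ≤ w ∧
      ∀ (Z : ℕ) (P P' : ℕ → (Fin k → ℕ) → Prop), 1 ≤ Z →
        (∀ (z L : ℕ) (a : Fin k → ℕ), z ≤ L → L ≤ w * z → P L a → P' z a) →
        (∀ L : ℕ, B0 ≤ L → L ≤ Z → ∃ (q : ℕ) (α : Fin q → ℝ), 1 ≤ q ∧ q ≤ Q ∧
          ((BBox (P L) L q α).card : ℝ) ≤ η q * (L : ℝ) ^ k) →
        ∑ z ∈ (Icc 1 Z).filter (fun z => ¬ Ok F M₀ z (P' z)), (1 / (z : ℝ)) ≤
          δ * Real.log Z + B := by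
  obtain ⟨η, hη, h⟩ := scales k F hF (δ / 2) (by positivity)
  refine ⟨η, hη, fun Q B0 => ?_⟩
  obtain ⟨M₀, w, B, hw, h2⟩ := h Q B0
  refine ⟨M₀, w, δ + B, hw, fun Z P P' hZ hPP hbox => ?_⟩
  obtain ⟨T, hT⟩ : ∃ T : ℕ, T = Nat.log 2 Z := ⟨_, rfl⟩
  have hTZ : 2 ^ T ≤ Z := by
    rw [hT]
    exact Nat.pow_log_le_self 2 (by omega)
  have h3 := h2 T P P' hPP (fun L hL1 hL2 => hbox L hL1 (hL2.trans hTZ))
  have h4 : ∑ z ∈ (Icc 1 Z).filter (fun z => ¬ Ok F M₀ z (P' z)), (1 / (z : ℝ)) ≤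
      (((range (T + 1)).filter (fun j => ¬ ∀ z : ℕ, 2 ^ j ≤ z → z ≤ 2 ^ (j + 1) → Ok F M₀ z (P' z))).card : ℝ) := by
    have hmap : ∀ z ∈ (Icc 1 Z).filter (fun z => ¬ Ok F M₀ z (P' z)), Nat.log 2 z ∈
        (range (T + 1)).filter (fun j => ¬ ∀ z : ℕ, 2 ^ j ≤ z → z ≤ 2 ^ (j + 1) → Ok F M₀ z (P' z)) := by
      intro z hz
      rw [mem_filter, mem_Icc] at hz
      rw [mem_filter, mem_range, Nat.lt_succ_iff, hT]
      refine ⟨Nat.log_mono_right hz.1.2, fun hc => hz.2 (hc z ?_ ?_)⟩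
      · exact Nat.pow_log_le_self 2 (by omega)
      · exact (Nat.lt_pow_succ_log_self (by norm_num) z).le
    rw [← sum_fiberwise_of_maps_to hmap, card_eq_sum_ones]
    push_cast
    refine sum_le_sum (fun j _ => ?_)
    have h5 : ∀ z ∈ ((Icc 1 Z).filter (fun z => ¬ Ok F M₀ z (P' z))).filter (fun z => Nat.log 2 z = j), (1 / (z : ℝ)) ≤ 1 / 2 ^ j := by
      intro z hz
      rw [mem_filter, mem_filter, mem_Icc] at hz
      have h6 : 2 ^ j ≤ z := by
        rw [← hz.2]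
        exact Nat.pow_log_le_self 2 (by omega)
      have h7 : ((2 : ℝ)) ^ j ≤ z := by exact_mod_cast h6
      exact one_div_le_one_div_of_le (by positivity) h7
    refine (sum_le_sum h5).trans ?_
    rw [sum_const, nsmul_eq_mul, mul_one_div, div_le_one (by positivity)]
    have h6 : (((Icc 1 Z).filter (fun z => ¬ Ok F M₀ z (P' z))).filter (fun z => Nat.log 2 z = j)).card ≤ (Ico (2 ^ j) (2 ^ (j + 1))).card := by
      refine card_le_card (fun z hz => ?_)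
      rw [mem_filter, mem_filter, mem_Icc] at hz
      rw [mem_Ico, ← hz.2]
      exact ⟨Nat.pow_log_le_self 2 (by omega), Nat.lt_pow_succ_log_self (by norm_num) z⟩
    rw [Nat.card_Ico, pow_succ] at h6
    have h7 : (((Icc 1 Z).filter (fun z => ¬ Ok F M₀ z (P' z))).filter (fun z => Nat.log 2 z = j)).card ≤ 2 ^ j := by omega
    exact_mod_cast h7
  refine h4.trans (h3.trans ?_)
  have hT2 : (T : ℝ) * Real.log 2 ≤ Real.log Z := by
    rw [← Real.log_pow]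
    refine Real.log_le_log (by positivity) ?_
    exact_mod_cast hTZ
  have hl2 : (1 / 2 : ℝ) ≤ Real.log 2 := by
    have := Real.log_two_gt_d9
    linarith
  have hT3 : (T : ℝ) * (1 / 2) ≤ Real.log Z := (mul_le_mul_of_nonneg_left hl2 (Nat.cast_nonneg T)).trans hT2
  nlinarith

end Pool.Agent.H19.EZ
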