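import Pool.Agent.H62.EX.Bx
import Pool.Agent.H19.EZ.Scl

/-!
# [H19 EZ ALM] THEOREM E at almost all scales

For every colouring, every `M` and every `Z ≤ (log M) ^ A` the sum of `1 / z` over the `z ≤ Z` which are not good at `M` is at most
`δ log Z + B`.  Good: for some `m₀ ≤ M₀` all but `F m₀ * z ^ k` of the increasing tuples `a` up to `z` have a good multiple `m a`,
`m ≤ m₀`.
-/

set_option autoImplicit false

namespace Pool.Agent.H19.EZ

open Finset Filter Pool.Agent.H62.EX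

/-- goodness at `L` gives goodness at comparable smaller `z` -/
theorem gw_scale {k r : ℕ} {W s₀ : ℕ} {χ : ℕ → Fin r} {D : ℕ} {c d : ℝ} {M w z L : ℕ} (hc : 0 ≤ c) (hd : 0 ≤ d) (hw : 1 ≤ w)
    (hzL : z ≤ L) (hLz : L ≤ w * z) {a : Fin k → ℕ} (h : Gw W s₀ χ D c d M L a) : Gw W s₀ χ D (c / w) d M z a := by
  intro G hG hG0
  have hwr : (0 : ℝ) < w := by exact_mod_cast hw
  have hlM := Real.log_natCast_nonneg M
  have hzr : (0 : ℝ) ≤ z := Nat.cast_nonneg _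
  obtain ⟨q, hq⟩ := h G hG (by
    intro h1
    apply hG0
    have h2 : (L : ℝ) ≤ w * z := by exact_mod_cast hLz
    have h3 : c * Real.log M < w * z := h1.trans_le h2
    rw [div_mul_eq_mul_div, div_lt_iff₀ hwr]
    linarith)
  refine ⟨q, le_trans ?_ hq⟩
  have h3 : (z : ℝ) / Real.log M ≤ L / Real.log M := div_le_div_of_nonneg_right (by exact_mod_cast hzL) hlM
  have h4 : 0 ≤ min 1 ((z : ℝ) / Real.log M) := le_min zero_le_one (div_nonneg hzr hlM)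
  have h5 : min 1 ((z : ℝ) / Real.log M) ^ D ≤ min 1 ((L : ℝ) / Real.log M) ^ D :=
    pow_le_pow_left₀ h4 (min_le_min le_rfl h3) D
  exact mul_le_mul_of_nonneg_right (mul_le_mul_of_nonneg_left h5 hd) (Nat.cast_nonneg _)

open Classical in
/-- **THEOREM E at almost all scales** -/
theorem almost_all (k r : ℕ) (hk : 1 ≤ k) : ∃ D : ℕ, ∀ A W s₀ : ℕ, 0 < W → Nat.Coprime s₀ W →
    ∀ F : ℕ → ℝ, (∀ m, 0 < F m) → ∀ δ : ℝ, 0 < δ → ∃ (M₀ : ℕ) (c d B : ℝ), 0 < c ∧ 0 < d ∧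
    ∀ (χ : ℕ → Fin r) (M Z : ℕ), 1 ≤ Z → (Z : ℝ) ≤ Real.log M ^ A →
      ∑ z ∈ (Icc 1 Z).filter (fun z => ¬ Ok F M₀ z (fun a : Fin k → ℕ => Gw W s₀ χ D c d M z a)), (1 / (z : ℝ)) ≤
        δ * Real.log Z + B := by
  obtain ⟨D, hD⟩ := boxW k r hk
  refine ⟨D, fun A W s₀ hW hs F hF δ hδ => ?_⟩
  obtain ⟨η, hη, h1⟩ := scales_sum k F hF δ hδ
  obtain ⟨Q, L₀, c, d, hc, hd, hbox⟩ := hD A W s₀ hW hs η hη
  obtain ⟨M₀, w, B, hw, h2⟩ := h1 Q L₀
  have hwr : (0 : ℝ) < w := by exact_mod_cast hw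
  refine ⟨M₀, c / w, d, B, by positivity, hd, fun χ M Z hZ hZM => ?_⟩
  refine h2 Z (fun L a => Gw W s₀ χ D c d M L a) (fun z a => Gw W s₀ χ D (c / w) d M z a) hZ ?_ ?_
  · intro z L a h3 h4 h5
    exact gw_scale hc.le hd.le hw h3 h4 h5
  · intro L h3 h4
    exact hbox χ M L h3 (le_trans (by exact_mod_cast h4) hZM)

end Pool.Agent.H19.EZ
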